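import Pool.Agent.W78.GC.Defs

/-! GC-1 : the iteration lemma. -/

set_option autoImplicit false

namespace W500.GC

open Finset Filter
open Pool.Agent.H376R2.MR
open Pool.Agent.W78.GA
open Pool.Agent.W78.GC

lemma FK_mono {K L : ℕ} (h : K ≤ L) : FK K ⊆ FK L := by
  intro k hk
  unfold FK at *
  rw [Finset.mem_Ioo] at *
  have : (K : ℤ) ≤ L := by exact_mod_cast h
  constructor <;> linarith [hk.1, hk.2]

lemma FK_zero : FK 0 = ∅ := by
  unfold FK
  simp

lemma sq3 (g a b c : ℝ) (hg : 0 ≤ g) (h : g ≤ a + 1 / 4 * b + 1 / 4 * c) :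
    g ^ 2 ≤ 2 * a ^ 2 + 1 / 4 * b ^ 2 + 1 / 4 * c ^ 2 := by
  have h1 : g ^ 2 ≤ (a + 1 / 4 * b + 1 / 4 * c) ^ 2 := by
    exact pow_le_pow_left₀ hg h 2
  nlinarith [sq_nonneg (a - (1 / 4 * b + 1 / 4 * c)), sq_nonneg (b - c)]

theorem iter : S_ITER := by
  intro A G b₁ b₂ hb1 hb1' hb2 hb2' hA hG hrec η hη
  obtain ⟨h0, hh0, Y0, hY0⟩ := hA (η / 8) (by positivity)
  obtain ⟨C, hC, hCm⟩ := hG
  set M : ℝ := max Y0 3 with hM
  have hM3 : (3 : ℝ) ≤ M := le_max_right _ _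
  have hMY : Y0 ≤ M := le_max_left _ _
  have key : ∀ j : ℕ, ∀ (Y : ℝ) (K : ℕ), (8 : ℝ) ^ j * M ≤ Y → 1 ≤ K →
      (K : ℝ) * ((8 : ℝ) ^ j * h0) ≤ Y →
      ∑ k ∈ (FK K).erase 0, ‖G Y k‖ ^ 2 ≤ η / 2 + (1 / 2) ^ j * (2 * C) := by
    intro j
    induction j with
    | zero =>
      intro Y K hY hK hKY
      rw [pow_zero, one_mul] at hY hKY
      have hY3 : (3 : ℝ) ≤ Y := hM3.trans hY
      have h1 : ∑ k ∈ (FK K).erase 0, ‖G Y k‖ ^ 2 ≤ ∑ k ∈ FK K, ‖G Y k‖ ^ 2 :=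
        Finset.sum_le_sum_of_subset_of_nonneg (Finset.erase_subset _ _)
          (fun _ _ _ => by positivity)
      have h2 := hCm K Y hY3 hK
      have h3 : (K : ℝ) / Y ≤ 1 := by
        rw [div_le_one (by linarith)]
        nlinarith [(Nat.cast_nonneg K : (0 : ℝ) ≤ K)]
      have h4 : C * (1 + (K : ℝ) / Y) ≤ C * 2 := by
        apply mul_le_mul_of_nonneg_left _ hC.le
        linarith
      rw [pow_zero, one_mul]
      linarith
    | succ j ih =>
      intro Y K hY hK hKY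
      have h8 : (1 : ℝ) ≤ 8 ^ j := one_le_pow₀ (by norm_num)
      have h8' : (8 : ℝ) ^ (j + 1) = 8 * 8 ^ j := by ring
      rw [h8'] at hY hKY
      have hKr : (1 : ℝ) ≤ K := by exact_mod_cast hK
      have hYpos : 0 < Y := by nlinarith
      have hdiv : ∀ b : ℝ, 1 ≤ b → b ≤ 8 →
          ∑ k ∈ (FK K).erase 0, ‖G (Y / b) k‖ ^ 2 ≤ η / 2 + (1 / 2) ^ j * (2 * C) := by
        intro b hb hb'
        have hb0 : 0 < b := by linarith
        have hY8 : Y / 8 ≤ Y / b := by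
          apply div_le_div_of_nonneg_left hYpos.le hb0 hb'
        refine ih (Y / b) K ?_ hK ?_
        · linarith
        · have : (K : ℝ) * (8 ^ j * h0) ≤ Y / 8 := by
            rw [le_div_iff₀ (by norm_num)]
            linarith
          linarith
      have hAK : ∑ k ∈ (FK K).erase 0, ‖A Y k‖ ^ 2 ≤ η / 8 := by
        have h1 := hY0 Y (by nlinarith)
        refine le_trans ?_ h1
        refine Finset.sum_le_sum_of_subset_of_nonneg (Finset.erase_subset_erase _ ?_)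
          (fun _ _ _ => by positivity)
        apply FK_mono
        apply Nat.le_floor
        rw [le_div_iff₀ (by linarith)]
        have h2 : (K : ℝ) * h0 * 1 ≤ (K : ℝ) * h0 * (8 * 8 ^ j) := by
          apply mul_le_mul_of_nonneg_left _ (by positivity)
          linarith
        linarith
      have h1 := hdiv b₁ hb1 hb1'
      have h2 := hdiv b₂ hb2 hb2'
      calc ∑ k ∈ (FK K).erase 0, ‖G Y k‖ ^ 2
          ≤ ∑ k ∈ (FK K).erase 0, (2 * ‖A Y k‖ ^ 2 + 1 / 4 * ‖G (Y / b₁) k‖ ^ 2 +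
            1 / 4 * ‖G (Y / b₂) k‖ ^ 2) := by
            refine Finset.sum_le_sum fun k _ => ?_
            exact sq3 _ _ _ _ (norm_nonneg _) (hrec Y k hYpos)
        _ = 2 * ∑ k ∈ (FK K).erase 0, ‖A Y k‖ ^ 2 +
            1 / 4 * ∑ k ∈ (FK K).erase 0, ‖G (Y / b₁) k‖ ^ 2 +
            1 / 4 * ∑ k ∈ (FK K).erase 0, ‖G (Y / b₂) k‖ ^ 2 := by
            rw [Finset.sum_add_distrib, Finset.sum_add_distrib, Finset.mul_sum, Finset.mul_sum,
              Finset.mul_sum]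
        _ ≤ η / 2 + (1 / 2) ^ (j + 1) * (2 * C) := by
            rw [pow_succ]
            linarith
  obtain ⟨J, hJ⟩ : ∃ J : ℕ, ((1 : ℝ) / 2) ^ J * (2 * C) ≤ η / 2 := by
    have h1 : Tendsto (fun J : ℕ => ((1 : ℝ) / 2) ^ J * (2 * C)) atTop (nhds (0 * (2 * C))) :=
      (tendsto_pow_atTop_nhds_zero_of_lt_one (by norm_num) (by norm_num)).mul_const _
    rw [zero_mul] at h1
    have h2 := h1.eventually (ge_mem_nhds (by positivity : (0 : ℝ) < η / 2))
    exact h2.exists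
  have h8J : (1 : ℝ) ≤ 8 ^ J := one_le_pow₀ (by norm_num)
  refine ⟨8 ^ J * h0, by nlinarith, 8 ^ J * M, fun Y hY => ?_⟩
  have hpos : 0 < (8 : ℝ) ^ J * h0 := by positivity
  have hYpos : 0 < Y := by nlinarith
  rcases Nat.eq_zero_or_pos ⌊Y / (8 ^ J * h0)⌋₊ with h | h
  · rw [h, FK_zero]
    simp only [Finset.erase_empty, Finset.sum_empty]
    exact hη.le
  · have h1 : ((⌊Y / (8 ^ J * h0)⌋₊ : ℕ) : ℝ) * (8 ^ J * h0) ≤ Y := by
      have h2 := Nat.floor_le (a := Y / (8 ^ J * h0)) (by positivity)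
      rwa [le_div_iff₀ hpos] at h2
    have h3 := key J Y _ hY h h1
    linarith

end W500.GC
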